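import Pool.Agent.helper68.SF.SpecE

set_option autoImplicit false

namespace SF

theorem PH : PH_stmt := by
  intro N K η T a hη hK
  set L : ℕ := max 1 ⌈T⌉₊ with hL
  have hL1 : 1 ≤ L := le_max_left _ _
  have hLT : T ≤ (L : ℝ) := by
    have h1 : T ≤ (⌈T⌉₊ : ℝ) := Nat.le_ceil T
    have h2 : ((⌈T⌉₊ : ℕ) : ℝ) ≤ (L : ℝ) := by
      exact_mod_cast le_max_right 1 ⌈T⌉₊
    exact le_trans h1 h2
  let F : ℕ → (Fin N → ℤ) := fun k i => ⌊a (k * L) i / η⌋
  have hsub : Set.range F ⊆ Set.Icc (fun _ => ⌊(-K) / η⌋) (fun _ => ⌊K / η⌋) := by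
    rintro x ⟨k, rfl⟩
    constructor
    · intro i
      have h := (abs_le.mp (hK (k * L) i)).1
      exact Int.floor_le_floor ((div_le_div_iff_of_pos_right hη).mpr h)
    · intro i
      have h := (abs_le.mp (hK (k * L) i)).2
      exact Int.floor_le_floor ((div_le_div_iff_of_pos_right hη).mpr h)
  have hfin : (Set.range F).Finite := (Set.finite_Icc _ _).subset hsub
  have hninj : ¬ Function.Injective F := fun h => Set.infinite_range_of_injective h hfin
  have hex : ∃ k k' : ℕ, k < k' ∧ F k = F k' := by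
    simp only [Function.Injective, not_forall] at hninj
    obtain ⟨k, k', hF, hne⟩ := hninj
    rcases lt_or_gt_of_ne hne with h | h
    · exact ⟨k, k', h, hF⟩
    · exact ⟨k', k, h, hF.symm⟩
  obtain ⟨k, k', hlt, hF⟩ := hex
  refine ⟨k * L, k' * L, ?_, ?_⟩
  · have h1 : (k : ℝ) + 1 ≤ (k' : ℝ) := by exact_mod_cast hlt
    have h2 : (0 : ℝ) ≤ (L : ℝ) := Nat.cast_nonneg L
    push_cast
    nlinarith [mul_le_mul_of_nonneg_right h1 h2]
  · intro i
    have h := congrFun hF i
    have h' : ⌊a (k * L) i / η⌋ = ⌊a (k' * L) i / η⌋ := h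
    have h3 := Int.abs_sub_lt_one_of_floor_eq_floor h'
    have h4 : |a (k * L) i - a (k' * L) i| = |a (k * L) i / η - a (k' * L) i / η| * η := by
      rw [← sub_div, abs_div, abs_of_pos hη, div_mul_cancel₀ _ hη.ne']
    rw [h4]
    nlinarith

end SF
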